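import Pool.Agent.Helper4.T7.StD
import Pool.Agent.Helper99.W5.M_Ld

/-!
# Project T7 (levels `7·5^n`), module LdU: leading forms of `U`

Adapted from `Pool/Agent/Helper81/TK/M_LdU.lean`.
-/

set_option autoImplicit false

namespace Pool.Agent.Helper5.T7

open Pool.Agent.Helper4.T7
open Pool.Agent.Helper14.W5
open Pool.Agent.Helper99.W5

section ops

variable {r s : ℕ}

/-- A multiple of the relation vanishes. -/
private theorem u_mulrel (hTrm : S5Trm) (hr : TRll) (F : Fin 5 → Fn5 (5 ^ r) (5 ^ s)) (h : RelQ F)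
    (U : List Tm) (hU : ∀ t ∈ U, Gd t) (hR : ∀ f, ∀ t ∈ relQ f, Gd t) :
    ∑ f : Fin 5, opL (sclL (-1) (mulL U (relQ f))) (F f) = 0 := by
  have h1 : ∀ f : Fin 5, opL (sclL (-1) (mulL U (relQ f))) (F f) =
      ((-1 : ℤ) : ZMod 5) • (opL U) (opL (relQ f) (F f)) := by
    intro f
    rw [ld_scl, ld_mulL hTrm U (relQ f) hU (hR f)]
    rfl
  rw [Finset.sum_congr rfl fun f _ => h1 f, ← Finset.smul_sum, ← map_sum, hr r s F h, map_zero,
    smul_zero]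

/-- The monomial `oW 0 * (oB - 1)^i * (oA - 1)^j`. -/
private theorem u_lead (hTrm : S5Trm) (hLow0 : S5Low0) (hNfa : S5Nfa) (i j : ℕ) (d : ℤ)
    (F : Fn5 (5 ^ r) (5 ^ s)) (hF : F ∈ Wd5 d) :
    ldMon 0 (i, 0, j) F - (dY ^ i * dX ^ j : Module.End (ZMod 5) (Fn5 (5 ^ r) (5 ^ s))) F ∈
      Wd5 (d - (((i + j : ℕ) : ℤ) + 1)) := by
  obtain ⟨l1, l2, l3, l4, l5, l6, l7, l8, _⟩ := hLow0 r s
  obtain ⟨n1, n2, n3, n4, n5, n6, n7, n8⟩ := hNfa r s
  have hB := ld_lw_pow hLow0 (oB - 1 : Module.End (ZMod 5) (Fn5 (5 ^ r) (5 ^ s))) 1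
    (by exact_mod_cast n8) i
  have hX := ld_lw_pow hLow0 (dX : Module.End (ZMod 5) (Fn5 (5 ^ r) (5 ^ s))) 1
    (by exact_mod_cast l7) j
  have pA := ld_pow hLow0 _ _ n7 l7 n5 j
  have pB := ld_pow hLow0 _ _ n8 l8 n6 i
  have q2 := l1 _ _ _ _ hB pA
  have q3 := l1 _ _ _ _ pB hX
  have e2 : ((1 * i : ℕ) : ℤ) + ((j : ℤ) + 2) = ((i + j : ℕ) : ℤ) + 2 := by push_cast; ring
  have e3 : (i : ℤ) + 2 + ((1 * j : ℕ) : ℤ) = ((i + j : ℕ) : ℤ) + 2 := by push_cast; ring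
  rw [e2] at q2
  rw [e3] at q3
  have q4 := l2 _ _ _ q2 q3
  have e4 : (oB - 1) ^ i * ((oA - 1) ^ j - dX ^ j) + ((oB - 1) ^ i - dY ^ i) * dX ^ j =
      ((oB - 1) ^ i * (oA - 1) ^ j - dY ^ i * dX ^ j : Module.End (ZMod 5) (Fn5 (5 ^ r) (5 ^ s))) := by
    rw [mul_sub, sub_mul]
    abel
  rw [e4] at q4
  have m2 := l4 _ _ (((i + j : ℕ) : ℤ) + 1) (by linarith) q4 d F hF
  have hw : ∀ G : Fn5 (5 ^ r) (5 ^ s), oW 0 G = G := fun G => (hTrm (ZMod 5) r s G).2.1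
  have e6 : ldMon 0 (i, 0, j) F - (dY ^ i * dX ^ j : Module.End (ZMod 5) (Fn5 (5 ^ r) (5 ^ s))) F =
      ((oB - 1) ^ i * (oA - 1) ^ j - dY ^ i * dX ^ j : Module.End (ZMod 5) (Fn5 (5 ^ r) (5 ^ s))) F := by
    rw [LinearMap.sub_apply]
    congr 1
    unfold ldMon
    simp only [pow_zero, mul_one]
    exact hw _
  rw [e6]
  exact m2

/-- Sums over `w` and `M7` with one nonzero block. -/
private theorem u_sum (S : Finset (ℕ × ℕ × ℕ)) (hS : S ⊆ M7) (c : Fin 4 → ℕ × ℕ × ℕ → ZMod 5)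
    (hc : ∀ w t, w ≠ 0 ∨ t ∉ S → c w t = 0) :
    ∑ w, ∑ t ∈ M7, c w t • (ldMon w t : Module.End (ZMod 5) (Fn5 (5 ^ r) (5 ^ s))) =
      ∑ t ∈ S, c 0 t • ldMon 0 t := by
  rw [Finset.sum_eq_single (0 : Fin 4)]
  · refine (Finset.sum_subset hS fun t _ hn => ?_).symm
    rw [hc 0 t (Or.inr hn), zero_smul]
  · intro w _ hw
    refine Finset.sum_eq_zero fun t _ => ?_
    rw [hc w t (Or.inl hw), zero_smul]
  · intro h
    exact absurd (Finset.mem_univ _) h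

end ops

private theorem u_gd_id (c : ℤ) (i f : Fin 5) : ∀ t ∈ id5 c i f, Gd t := by
  intro t ht
  unfold id5 at ht
  split_ifs at ht
  · rw [List.mem_singleton] at ht
    subst ht
    exact ⟨by norm_num, by norm_num⟩
  · exact absurd ht (by simp)

private theorem u_gd_mm {A B : Fin 5 → Fin 5 → List Tm} (hA : ∀ i f, ∀ t ∈ A i f, Gd t)
    (hB : ∀ i f, ∀ t ∈ B i f, Gd t) (i f : Fin 5) : ∀ t ∈ mm5 A B i f, Gd t := by
  unfold mm5
  exact ld_gd_app (ld_gd_app (ld_gd_app (ld_gd_app (ld_gd_mulL (hA i 0) (hB 0 f))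
    (ld_gd_mulL (hA i 1) (hB 1 f))) (ld_gd_mulL (hA i 2) (hB 2 f)))
    (ld_gd_mulL (hA i 3) (hB 3 f))) (ld_gd_mulL (hA i 4) (hB 4 f))

/-- The lists for `U`. -/
private theorem u_gdB (hg : TCeG) (i f : Fin 5) : ∀ t ∈ BUQ i f, Gd t := by
  have a2 : ∀ i f, ∀ t ∈ T2Q i f, Gd t := fun i f => (hg.1 i f).1
  have a3 : ∀ i f, ∀ t ∈ T3Q i f, Gd t := fun i f => (hg.1 i f).2.1
  have a11 : ∀ i f, ∀ t ∈ T11Q i f, Gd t := fun i f => (hg.1 i f).2.2.1
  have a13 : ∀ i f, ∀ t ∈ T13Q i f, Gd t := fun i f => (hg.1 i f).2.2.2.1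
  have a17 : ∀ i f, ∀ t ∈ T17Q i f, Gd t := fun i f => (hg.1 i f).2.2.2.2.1
  have a23 : ∀ i f, ∀ t ∈ T23Q i f, Gd t := fun i f => (hg.1 i f).2.2.2.2.2.2.1
  have aC : ∀ i f, ∀ t ∈ CLQ i f, Gd t := by
    intro i f
    unfold CLQ
    exact ld_gd_app (ld_gd_scl _ (a3 i f)) (ld_gd_scl _ (a13 i f))
  have m1 := u_gd_mm a2 aC i f
  have m2 := u_gd_mm a3 a3 i f
  have b1 := (hg.2.1 i).2.1
  have b2 := (hg.2.1 f).1
  unfold BUQ ULQ
  exact ld_gd_app (ld_gd_app (ld_gd_app (ld_gd_app (ld_gd_app (ld_gd_app (ld_gd_app (ld_gd_app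
    (u_gd_id 3 i f) (ld_gd_scl _ (a2 i f))) (a3 i f)) (a11 i f)) (ld_gd_scl _ (a17 i f)))
    (ld_gd_scl _ (a23 i f))) m1) (ld_gd_scl _ m2)) (ld_gd_scl _ (ld_gd_mulL b1 b2))

/-- Module LdU. -/
theorem hLdU (ht : S5Trm) (hl : S5Low0) (hn : S5Nfa) (he : S5Exp) (hr : TRll) (hg : TCeG)
    (hc : TCeU) : TLdU := by
  intro r s d F hR hF i
  have hB := u_gdB hg
  -- modulo the relation
  have eU : ∑ f : Fin 5, opL (ULQ i f) (F f) = ∑ f : Fin 5, opL (BUQ i f) (F f) := by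
    have h0 := u_mulrel ht hr F hR (mUQ i) (hg.2.1 i).2.1 (fun f => (hg.2.1 f).1)
    have e : ∀ f : Fin 5, opL (BUQ i f) (F f) = opL (ULQ i f) (F f) +
        opL (sclL (-1) (mulL (mUQ i) (relQ f))) (F f) := by
      intro f
      unfold BUQ
      rw [ld_app]
      rfl
    rw [Finset.sum_congr rfl fun f _ => e f, Finset.sum_add_distrib, h0, add_zero]
  -- the expansions
  have kU := fun f : Fin 5 => ld_key hl hn he (r := r) (s := s) (BUQ i f) (hB i f) 3 (by norm_num)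
    (fun w t => ((if i = f ∧ w = 0 ∧ t = (1, 0, 1) then 1 else 0 : ℤ) : ZMod 5))
    (fun w t ht hw => ld_cast (hc i f w t ht (by omega)))
  have e0 : ((3 : ℕ) : ℤ) = 3 := rfl
  -- every column
  have hcol : ∀ f : Fin 5, opL (BUQ i f) (F f) - (if i = f then QoQ (F f) else 0) ∈
      (Wd5 (d - 3) : Submodule (ZMod 5) (Fn5 (5 ^ r) (5 ^ s))) := by
    intro f
    have h := kU f
    by_cases hif : i = f
    · rw [u_sum {(1, 0, 1)} (by decide) _ (fun w t ht => by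
        rw [if_neg, Int.cast_zero]
        rintro ⟨-, h1, h2⟩
        rcases ht with h3 | h3
        · exact h3 h1
        · exact h3 (by rw [h2]; exact Finset.mem_singleton_self _)), Finset.sum_singleton,
        if_pos ⟨hif, rfl, rfl⟩] at h
      have h1 := h d (F f) (hF f)
      rw [e0] at h1
      have h2 := u_lead ht hl hn 1 1 d (F f) (hF f)
      have e3 : d - (((1 + 1 : ℕ) : ℤ) + 1) = d - 3 := by norm_num
      rw [e3] at h2
      have e : opL (BUQ i f) (F f) - (if i = f then QoQ (F f) else 0) =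
          (opL (BUQ i f) - ((1 : ℤ) : ZMod 5) • ldMon 0 (1, 0, 1) :
            Module.End (ZMod 5) (Fn5 (5 ^ r) (5 ^ s))) (F f) +
          (ldMon 0 (1, 0, 1) (F f) -
            (dY ^ 1 * dX ^ 1 : Module.End (ZMod 5) (Fn5 (5 ^ r) (5 ^ s))) (F f)) := by
        obtain ⟨-, -, -, -, -, -, -, -, hxy, _⟩ := hl r s
        have hQ : (QoQ : Module.End (ZMod 5) (Fn5 (5 ^ r) (5 ^ s))) (F f) =
            (dY ^ 1 * dX ^ 1 : Module.End (ZMod 5) (Fn5 (5 ^ r) (5 ^ s))) (F f) := by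
          unfold QoQ
          rw [hxy, pow_one, pow_one]
        rw [if_pos hif, hQ, LinearMap.sub_apply, LinearMap.smul_apply, Int.cast_one, one_smul]
        abel
      rw [e]
      exact Submodule.add_mem _ h1 h2
    · rw [u_sum ∅ (by simp) _ (fun w t ht => by
        rw [if_neg, Int.cast_zero]
        rintro ⟨h1, -⟩
        exact hif h1), Finset.sum_empty, sub_zero] at h
      have h1 := h d (F f) (hF f)
      rw [e0] at h1
      rw [if_neg hif, sub_zero]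
      exact h1
  have hs := Submodule.sum_mem (Wd5 (d - 3) : Submodule (ZMod 5) (Fn5 (5 ^ r) (5 ^ s)))
    (t := Finset.univ) (fun f _ => hcol f)
  rw [Finset.sum_sub_distrib, Finset.sum_ite_eq, if_pos (Finset.mem_univ _), ← eU] at hs
  exact hs

end Pool.Agent.Helper5.T7
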